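import Pool.Agent.SNB.Final
import Pool.Agent.SNC.Final
import Pool.Agent.SNB.DNonN

/-!
# MP_3e8648_lc: the cofinality of the strong measure zero ideal: all five cardinals

Two Boolean valued models. In the first one `cof(SN) ≤ |I| < b`: some family of strong measure
zero sets indexed by `I` is cofinal in the strong measure zero ideal, and every family of
functions from `ℕ` to `ℕ` indexed by `I` has an upper bound for `≤*`. In the second one
`cof(SN) ≤ |I| < min(d, non(N))`: no family of functions indexed by `I` is dominating and every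
family of points of the Cantor space indexed by `I` is a null set.

* `CofSN.Nm B α` : `B`-names of sequences of elements of `α` (`α` countable: `ℕ`, `Bool`,
  finite words, finite sets of words);
* `CofSN.BSet B` : `B`-valued sets of points of the Cantor space (extensional maps);
* `CofSN.SN X` : Boolean value of: for every `f : ℕ → ℕ` there is `σ : ℕ → 2^{<ω}` with
  `|σ(n)| ≥ f(n)` for all `n` and `X ⊆ ⋃ [σ(n)]`;
* `CofSN.Sub X Y` : Boolean value of `X ⊆ Y`;
* `CofSN.Nm.leS f g` : Boolean value of `f ≤* g`;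
* `CofSN2.small φ` : Boolean value of: for all `j`, `φ(j)` is a set of at most `2 ^ j` words
  of length `2 j` (so that the set `[φ(j)]` has measure at most `2 ^ (-j)`);
* `CofSN2.infm φ x` : Boolean value of: `x ∈ [φ(j)]` for infinitely many `j`; for small `φ`
  these `x` form a null set.
-/

set_option autoImplicit false

namespace Pool.Agent.Results.MP_3e8648_lc.CofSNFull

open CofSN CofSN2

/-- `cof(SN) < b` in one Boolean valued universe, `cof(SN) < min(d, non(N))` in another one. -/
theorem result :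
    (∃ (B : Type) (_ : CompleteBooleanAlgebra B) (I : Type), (⊥ : B) ≠ ⊤ ∧
      (∃ Y : I → BSet B, (∀ i, SN (Y i) = ⊤) ∧ ∀ X : BSet B, SN X ≤ ⨆ i, Sub X (Y i)) ∧
      ∀ g : I → Nm B ℕ, ∃ h : Nm B ℕ, ∀ i, Nm.leS (g i) h = ⊤) ∧
    ∃ (B : Type) (_ : CompleteBooleanAlgebra B) (I : Type), (⊥ : B) ≠ ⊤ ∧
      (∃ Y : I → BSet B, (∀ i, SN (Y i) = ⊤) ∧ ∀ X : BSet B, SN X ≤ ⨆ i, Sub X (Y i)) ∧
      (∀ g : I → Nm B ℕ, ⨆ f : Nm B ℕ, ⨅ i, (Nm.leS f (g i))ᶜ = ⊤) ∧
      ∀ x : I → Nm B Bool,
        ⨆ φ : Nm B (Finset (List Bool)), small φ ⊓ ⨅ i, infm φ (x i) = ⊤ :=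
  ⟨Pool.Agent.SNC.fib SNB.subm, SNB.dnonn⟩

end Pool.Agent.Results.MP_3e8648_lc.CofSNFull
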